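import Mathlib

set_option autoImplicit false

open MeasureTheory Complex Filter Topology Metric
open scoped FourierTransform Real ContDiff

namespace Pool.Agent.Q85.HT

noncomputable section

/-- An integrable kernel of integral one which kills all frequencies of size at least `η`. -/
theorem exists_kernel {η : ℝ} (hη : 0 < η) : ∃ w : ℝ → ℂ, Integrable w ∧ ∫ t, w t = 1 ∧
    ∀ l : ℝ, η ≤ |l| → ∫ t : ℝ, Complex.exp ((l : ℂ) * (t : ℂ) * I) * w t = 0 := by
  have hpi : 0 < Real.pi := Real.pi_pos
  let b : ContDiffBump (0:ℝ) := ⟨η / (4 * Real.pi), η / (2 * Real.pi), by positivity, by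
    apply div_lt_div_of_pos_left hη (by positivity)
    linarith⟩
  have h1 : HasCompactSupport (fun x => (b x : ℂ)) :=
    b.hasCompactSupport.comp_left (g := fun y : ℝ => (y : ℂ)) (by simp)
  have h2 : ContDiff ℝ ∞ (fun x => (b x : ℂ)) := Complex.ofRealCLM.contDiff.comp b.contDiff
  let G : SchwartzMap ℝ ℂ := h1.toSchwartzMap h2
  have hG : ∀ x, G x = (b x : ℂ) := fun x => rfl
  have hinv : ∀ x : ℝ, 𝓕⁻ (𝓕 (G : ℝ → ℂ)) x = G x := by
    intro x
    rw [G.continuous.fourierInv_fourier_eq G.integrable ?_]
    rw [← SchwartzMap.fourier_coe]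
    exact (𝓕 G).integrable
  refine ⟨𝓕 (G : ℝ → ℂ), ?_, ?_, ?_⟩
  · rw [← SchwartzMap.fourier_coe]
    exact (𝓕 G).integrable
  · have := hinv 0
    rw [Real.fourierInv_eq'] at this
    simp only [inner_zero_right, mul_zero, Complex.ofReal_zero, zero_mul, Complex.exp_zero,
      one_smul] at this
    rw [this, hG]
    have : b 0 = 1 := b.one_of_mem_closedBall (by simp [b.rIn_pos.le])
    rw [this]; simp
  · intro l hl
    have := hinv (l / (2 * Real.pi))
    rw [Real.fourierInv_eq', hG] at this
    have h0 : b (l / (2 * Real.pi)) = 0 := by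
      apply b.zero_of_le_dist
      rw [dist_zero_right, Real.norm_eq_abs, abs_div, abs_of_pos (by positivity : (0:ℝ) < 2 * Real.pi)]
      apply div_le_div_of_nonneg_right hl (by positivity)
    rw [h0] at this
    rw [Complex.ofReal_zero] at this
    rw [← this]
    apply integral_congr_ae
    refine Filter.Eventually.of_forall (fun t => ?_)
    simp only [smul_eq_mul]
    congr 2
    simp only [RCLike.inner_apply, conj_trivial]
    push_cast
    field_simp

end

end Pool.Agent.Q85.HT
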