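import Mathlib
import Pool.Agent.Q85.HT.A

set_option autoImplicit false

open MeasureTheory Complex Filter Topology Metric

namespace Pool.Agent.Q85.HT

noncomputable section

/-- Harnack type inequality at one step. -/
theorem harnack_step {f : ℂ → ℂ} (hf : Differentiable ℂ f)
    (hb : ∀ z : ℂ, 0 ≤ z.re → z.re ≤ 1 → ‖f z‖ ≤ 1) {z₀ z : ℂ} (h0 : z₀.re = 1/2)
    (hz : ‖z - z₀‖ ≤ 1/4) : ‖1 - f z‖ ≤ 3 * ‖1 - f z₀‖ := by
  have key : ∀ M : ℝ, 0 < M → ‖f z - 1‖ ≤ 2 * M + 3 * ‖f z₀ - 1‖ := by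
    intro M hM
    have h := borelCaratheodory (f := fun v => f (z₀ + v) - 1) (R := 1/2) (z := z - z₀) hM
      (Differentiable.differentiableOn (by fun_prop)) (by
        intro v hv
        rw [mem_ball_zero_iff] at hv
        have hre : |v.re| ≤ ‖v‖ := abs_re_le_norm v
        have h1 := (abs_le.1 hre)
        have := hb (z₀ + v) (by rw [add_re, h0]; linarith) (by rw [add_re, h0]; linarith)
        have h2 : (f (z₀ + v)).re ≤ 1 := (re_le_norm _).trans this
        simp only [Set.mem_ofPred_eq, sub_re, one_re]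
        linarith) (by norm_num) (by rw [mem_ball_zero_iff]; linarith)
    simp only [add_sub_cancel, add_zero] at h
    refine h.trans ?_
    have hr : 0 ≤ ‖z - z₀‖ := norm_nonneg _
    have hg : 0 ≤ ‖f z₀ - 1‖ := norm_nonneg _
    have hd : 0 < 1/2 - ‖z - z₀‖ := by linarith
    have e1 : 2 * M * ‖z - z₀‖ / (1/2 - ‖z - z₀‖) ≤ 2 * M := by
      rw [div_le_iff₀ hd]
      have : ‖z - z₀‖ ≤ 1/2 - ‖z - z₀‖ := by linarith
      exact mul_le_mul_of_nonneg_left this (by positivity)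
    have e2 : ‖f z₀ - 1‖ * (1/2 + ‖z - z₀‖) / (1/2 - ‖z - z₀‖) ≤ 3 * ‖f z₀ - 1‖ := by
      rw [div_le_iff₀ hd]
      nlinarith
    linarith
  rw [norm_sub_rev, norm_sub_rev 1 (f z₀)]
  apply le_of_forall_pos_le_add
  intro ε hε
  have := key (ε / 2) (by positivity)
  linarith

theorem harnack_iter {f : ℂ → ℂ} (hf : Differentiable ℂ f)
    (hb : ∀ z : ℂ, 0 ≤ z.re → z.re ≤ 1 → ‖f z‖ ≤ 1) (n : ℕ) :
    ∀ t : ℝ, |t| ≤ n / 4 → ‖1 - f (1/2 + t * I)‖ ≤ 3 ^ n * ‖1 - f (1/2)‖ := by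
  induction n with
  | zero =>
    intro t ht
    have : t = 0 := by simpa using ht
    subst this
    simp
  | succ n ih =>
    intro t ht
    obtain ⟨s, hs, hst⟩ : ∃ s : ℝ, |s| ≤ n / 4 ∧ |t - s| ≤ 1/4 := by
      refine ⟨t * (n / (n + 1)), ?_, ?_⟩
      · rw [abs_mul, abs_of_nonneg (by positivity : (0:ℝ) ≤ n / (n + 1))]
        have : |t| ≤ (n + 1) / 4 := by push_cast at ht; exact ht
        calc |t| * (n / (n + 1)) ≤ (n + 1) / 4 * (n / (n + 1)) := by gcongr
          _ = n / 4 := by field_simp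
      · have e : t - t * (n / (n + 1)) = t * (1 / (n + 1)) := by field_simp; ring
        rw [e, abs_mul, abs_of_nonneg (by positivity : (0:ℝ) ≤ 1 / (n + 1))]
        have : |t| ≤ (n + 1) / 4 := by push_cast at ht; exact ht
        calc |t| * (1 / (n + 1)) ≤ (n + 1) / 4 * (1 / (n + 1)) := by gcongr
          _ = 1 / 4 := by field_simp
    have h1 := harnack_step hf hb (z₀ := 1/2 + s * I) (z := 1/2 + t * I) (by simp) (by
      have : (1/2 + t * I : ℂ) - (1/2 + s * I) = ((t - s : ℝ) : ℂ) * I := by push_cast; ring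
      rw [this, norm_mul, norm_I, mul_one, Complex.norm_real]
      exact hst)
    have h2 := ih s hs
    calc _ ≤ 3 * ‖1 - f (1/2 + s * I)‖ := h1
      _ ≤ 3 * (3 ^ n * ‖1 - f (1/2)‖) := by gcongr
      _ = _ := by ring

theorem exists_tail {w : ℝ → ℂ} (hw : Integrable w) {ε : ℝ} (hε : 0 < ε) :
    ∃ n : ℕ, ∫ t in {t : ℝ | (n : ℝ) / 4 < |t|}, ‖w t‖ < ε := by
  have h : Tendsto (fun n : ℕ => ∫ t in {t : ℝ | (n : ℝ) / 4 < |t|}, ‖w t‖) atTop
      (𝓝 (∫ t in ⋂ n : ℕ, {t : ℝ | (n : ℝ) / 4 < |t|}, ‖w t‖)) := by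
    apply tendsto_setIntegral_of_antitone
    · intro n
      exact measurableSet_lt measurable_const continuous_abs.measurable
    · intro m n hmn t ht
      simp only [Set.mem_ofPred_eq] at *
      have : (m : ℝ) ≤ n := by exact_mod_cast hmn
      linarith
    · exact ⟨0, hw.norm.integrableOn⟩
  have he : (⋂ n : ℕ, {t : ℝ | (n : ℝ) / 4 < |t|}) = ∅ := by
    rw [Set.eq_empty_iff_forall_notMem]
    intro t ht
    obtain ⟨n, hn⟩ := exists_nat_gt (4 * |t|)
    have := Set.mem_iInter.1 ht n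
    simp only [Set.mem_ofPred_eq] at this
    linarith
  rw [he] at h
  simp only [Measure.restrict_empty, integral_zero_measure] at h
  have := (h.eventually_lt_const hε).exists
  exact this

theorem gap_const {η : ℝ} (hη : 0 < η) : ∃ c : ℝ, 0 < c ∧ ∀ (ι : Type) (P : Finset ι) (a : ι → ℂ)
    (l : ι → ℝ), (∀ p ∈ P, η ≤ |l p|) →
    (∀ z : ℂ, z.re = 0 → ‖∑ p ∈ P, a p * Complex.exp (l p * z)‖ ≤ 1) →
    (∀ z : ℂ, z.re = 1 → ‖∑ p ∈ P, a p * Complex.exp (l p * z)‖ ≤ 1) →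
    c ≤ ‖1 - ∑ p ∈ P, a p * Complex.exp (l p * (1/2))‖ ∧
      ‖∑ p ∈ P, a p * Complex.exp (l p * (1/2))‖ ≤ 1 := by
  obtain ⟨w, hw, hw1, hw0⟩ := exists_kernel hη
  obtain ⟨n, hn⟩ := exists_tail hw (show (0:ℝ) < 1/4 by norm_num)
  have hWpos : 0 < ∫ t, ‖w t‖ := by
    have : (1:ℝ) ≤ ∫ t, ‖w t‖ := by
      calc (1:ℝ) = ‖∫ t, w t‖ := by rw [hw1]; simp
        _ ≤ ∫ t, ‖w t‖ := norm_integral_le_integral_norm _
    linarith
  refine ⟨1 / (2 * 3 ^ n * ∫ t, ‖w t‖), by positivity, ?_⟩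
  intro ι P a l hl hb0 hb1
  set f : ℂ → ℂ := fun z => ∑ p ∈ P, a p * Complex.exp (l p * z) with hf
  have hfd : Differentiable ℂ f := by
    rw [hf]; fun_prop
  have hbdd : BddAbove ((norm ∘ f) '' Complex.HadamardThreeLines.verticalClosedStrip 0 1) := by
    refine ⟨∑ p ∈ P, ‖a p‖ * Real.exp (|l p|), ?_⟩
    rintro _ ⟨z, hz, rfl⟩
    simp only [Function.comp_apply, hf]
    refine (norm_sum_le _ _).trans (Finset.sum_le_sum fun p _ => ?_)
    rw [norm_mul, Complex.norm_exp]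
    apply mul_le_mul_of_nonneg_left _ (norm_nonneg _)
    apply Real.exp_le_exp.2
    rw [Complex.re_ofReal_mul]
    obtain ⟨hz0, hz1⟩ := hz
    calc l p * z.re ≤ |l p * z.re| := le_abs_self _
      _ = |l p| * |z.re| := abs_mul _ _
      _ ≤ |l p| * 1 := by
        apply mul_le_mul_of_nonneg_left _ (abs_nonneg _)
        rw [abs_of_nonneg hz0]; exact hz1
      _ = |l p| := mul_one _
  have hb : ∀ z : ℂ, 0 ≤ z.re → z.re ≤ 1 → ‖f z‖ ≤ 1 := by
    intro z h0 h1
    have := Complex.HadamardThreeLines.norm_le_interp_of_mem_verticalClosedStrip₀₁' f (z := z)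
      (a := 1) (b := 1) ⟨h0, h1⟩ hfd.diffContOnCl hbdd (fun z hz => hb0 z hz) (fun z hz => hb1 z hz)
    simpa using this
  -- the average against `w`
  have hline : ∀ t : ℝ, ‖f (1/2 + t * I)‖ ≤ 1 := fun t => hb _ (by simp) (by simp; norm_num)
  have hcont : Continuous fun t : ℝ => f (1/2 + t * I) := hfd.continuous.comp (by fun_prop)
  have hint : Integrable fun t : ℝ => f (1/2 + t * I) * w t := by
    refine hw.bdd_mul (c := 1) hcont.aestronglyMeasurable (Eventually.of_forall fun t => hline t)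
  have havg : ∫ t : ℝ, f (1/2 + t * I) * w t = 0 := by
    have : ∀ t : ℝ, f (1/2 + t * I) * w t =
        ∑ p ∈ P, (a p * Complex.exp (l p * (1/2))) * (Complex.exp ((l p : ℂ) * (t : ℂ) * I) * w t) := by
      intro t
      rw [hf]
      simp only
      rw [Finset.sum_mul]
      apply Finset.sum_congr rfl
      intro p _
      rw [mul_add, Complex.exp_add]
      ring_nf
    simp_rw [this]
    rw [integral_finsetSum]
    · apply Finset.sum_eq_zero
      intro p hp
      rw [integral_const_mul, hw0 (l p) (hl p hp), mul_zero]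
    · intro p hp
      apply Integrable.const_mul
      refine hw.bdd_mul (c := 1) ?_ (Eventually.of_forall fun t => ?_)
      · exact (Continuous.aestronglyMeasurable (by fun_prop))
      · have : ((l p : ℂ) * (t : ℂ) * I) = ((l p * t : ℝ) : ℂ) * I := by push_cast; ring
        rw [this, Complex.norm_exp_ofReal_mul_I]
  have h1 : (1 : ℂ) = ∫ t : ℝ, (1 - f (1/2 + t * I)) * w t := by
    simp_rw [sub_mul, one_mul]
    rw [integral_sub hw hint, hw1, havg, sub_zero]
  have hint2 : Integrable fun t : ℝ => (1 - f (1/2 + t * I)) * w t := by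
    simp_rw [sub_mul, one_mul]
    exact hw.sub hint
  set κ := ‖1 - f (1/2)‖ with hκ
  have hmeas : MeasurableSet {t : ℝ | (n : ℝ) / 4 < |t|} :=
    measurableSet_lt measurable_const continuous_abs.measurable
  have h2 : (1:ℝ) ≤ 3 ^ n * κ * (∫ t, ‖w t‖) + 2 * (1/4) := by
    calc (1:ℝ) = ‖∫ t : ℝ, (1 - f (1/2 + t * I)) * w t‖ := by rw [← h1]; simp
      _ ≤ ∫ t : ℝ, ‖(1 - f (1/2 + t * I)) * w t‖ := norm_integral_le_integral_norm _
      _ = (∫ t in {t : ℝ | (n : ℝ) / 4 < |t|}, ‖(1 - f (1/2 + t * I)) * w t‖) +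
          ∫ t in {t : ℝ | (n : ℝ) / 4 < |t|}ᶜ, ‖(1 - f (1/2 + t * I)) * w t‖ :=
        (integral_add_compl hmeas hint2.norm).symm
      _ ≤ (∫ t in {t : ℝ | (n : ℝ) / 4 < |t|}, 2 * ‖w t‖) +
          ∫ t in {t : ℝ | (n : ℝ) / 4 < |t|}ᶜ, 3 ^ n * κ * ‖w t‖ := by
        apply add_le_add
        · apply setIntegral_mono_on hint2.norm.integrableOn (hw.norm.const_mul _).integrableOn hmeas
          intro t _
          rw [norm_mul]
          apply mul_le_mul_of_nonneg_right _ (norm_nonneg _)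
          calc ‖1 - f (1/2 + t * I)‖ ≤ ‖(1:ℂ)‖ + ‖f (1/2 + t * I)‖ := norm_sub_le _ _
            _ ≤ 1 + 1 := by rw [norm_one]; linarith [hline t]
            _ = 2 := by norm_num
        · apply setIntegral_mono_on hint2.norm.integrableOn (hw.norm.const_mul _).integrableOn
            hmeas.compl
          intro t ht
          rw [norm_mul]
          apply mul_le_mul_of_nonneg_right _ (norm_nonneg _)
          exact harnack_iter hfd hb n t (by simpa using ht)
      _ ≤ 2 * (1/4) + 3 ^ n * κ * (∫ t, ‖w t‖) := by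
        rw [integral_const_mul, integral_const_mul]
        apply add_le_add
        · linarith
        · apply mul_le_mul_of_nonneg_left _ (by positivity)
          exact setIntegral_le_integral hw.norm (Eventually.of_forall fun t => norm_nonneg _)
      _ = _ := by ring
  have h3 : 1 / (2 * 3 ^ n * ∫ t, ‖w t‖) ≤ κ := by
    rw [div_le_iff₀ (by positivity)]
    nlinarith
  exact ⟨h3, hb (1/2) (by norm_num) (by norm_num)⟩

theorem gap_norm {η : ℝ} (hη : 0 < η) : ∃ c : ℝ, 0 < c ∧ ∀ (ι : Type) (P : Finset ι) (a : ι → ℂ)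
    (l : ι → ℝ), (∀ p ∈ P, η ≤ |l p|) →
    (∀ z : ℂ, z.re = 0 → ‖∑ p ∈ P, a p * Complex.exp (l p * z)‖ ≤ 1) →
    (∀ z : ℂ, z.re = 1 → ‖∑ p ∈ P, a p * Complex.exp (l p * z)‖ ≤ 1) →
    ‖∑ p ∈ P, a p * Complex.exp (l p * (1/2))‖ ≤ 1 - c := by
  obtain ⟨c, hc, h⟩ := gap_const hη
  refine ⟨c, hc, ?_⟩
  intro ι P a l hl h0 h1
  set S := ∑ p ∈ P, a p * Complex.exp (l p * (1/2)) with hS
  obtain ⟨θ, hθ, hθS⟩ : ∃ θ : ℂ, ‖θ‖ = 1 ∧ θ * S = (‖S‖ : ℂ) := by
    rcases eq_or_ne S 0 with hz | hz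
    · exact ⟨1, by simp, by simp [hz]⟩
    · refine ⟨(‖S‖ : ℂ) / S, ?_, by field_simp⟩
      rw [norm_div, Complex.norm_real, norm_norm, div_self (by simpa using hz)]
  have hsum : ∀ z : ℂ, ∑ p ∈ P, (θ * a p) * Complex.exp (l p * z) =
      θ * ∑ p ∈ P, a p * Complex.exp (l p * z) := by
    intro z
    rw [Finset.mul_sum]
    exact Finset.sum_congr rfl fun p _ => by ring
  obtain ⟨h2, h3⟩ := h ι P (fun p => θ * a p) l hl
    (fun z hz => by rw [hsum, norm_mul, hθ, one_mul]; exact h0 z hz)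
    (fun z hz => by rw [hsum, norm_mul, hθ, one_mul]; exact h1 z hz)
  rw [hsum, ← hS, hθS] at h2 h3
  have h4 : ‖(1:ℂ) - (‖S‖ : ℂ)‖ = |1 - ‖S‖| := by
    rw [← Complex.ofReal_one, ← Complex.ofReal_sub, Complex.norm_real, Real.norm_eq_abs]
  rw [h4] at h2
  rw [Complex.norm_real, norm_norm] at h3
  rw [abs_of_nonneg (by linarith)] at h2
  linarith

end

end Pool.Agent.Q85.HT
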