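import Mathlib
import Pool.Agent.Q85.HT.B

set_option autoImplicit false

open Complex Filter Topology ComplexConjugate

namespace Pool.Agent.Q85.HT

noncomputable section

/-- The data of two antilinear symmetric operators with orthonormal eigenvectors. -/
structure Pair (E : Type*) [NormedAddCommGroup E] [InnerProductSpace ℂ E] where
  H : E →L⋆[ℂ] E
  K : E →L⋆[ℂ] E
  e : ℕ → E
  f : ℕ → E
  ρ : ℕ → ℝ
  σ : ℕ → ℝ
  he : Orthonormal ℂ e
  hf : Orthonormal ℂ f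
  hρ : ∀ i, 0 < ρ i
  hσ : ∀ k, 0 < σ k
  He : ∀ i, H (e i) = (ρ i : ℂ) • e i
  Kf : ∀ k, K (f k) = (σ k : ℂ) • f k
  Hs : ∀ x y, inner ℂ (H x) y = inner ℂ (H y) x
  Ks : ∀ x y, inner ℂ (K x) y = inner ℂ (K y) x
  KH : ∀ x, ‖K x‖ ≤ ‖H x‖

variable {E : Type*} [NormedAddCommGroup E] [InnerProductSpace ℂ E]

theorem norm_sum_smul {v : ℕ → E} (hv : Orthonormal ℂ v) (s : Finset ℕ) (c : ℕ → ℂ) :
    ‖∑ i ∈ s, c i • v i‖ = Real.sqrt (∑ i ∈ s, ‖c i‖ ^ 2) := by
  rw [eq_comm, Real.sqrt_eq_iff_mul_self_eq (Finset.sum_nonneg fun i _ => by positivity)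
    (norm_nonneg _)]
  have h := inner_self_eq_norm_mul_norm (𝕜 := ℂ) (∑ i ∈ s, c i • v i)
  rw [hv.inner_sum c c s] at h
  have h2 : (∑ i ∈ s, conj (c i) * c i) = ((∑ i ∈ s, ‖c i‖ ^ 2 : ℝ) : ℂ) := by
    push_cast
    apply Finset.sum_congr rfl
    intro i _
    rw [Complex.conj_mul']
  rw [h2] at h
  rw [← h]
  exact (Complex.ofReal_re _)

variable (P : Pair E)

theorem Pair.bil0 (I J : Finset ℕ) (X Y : ℕ → ℂ) :
    ‖∑ i ∈ I, ∑ k ∈ J, inner ℂ (P.e i) (P.f k) * X k * Y i‖ ≤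
      Real.sqrt (∑ k ∈ J, ‖X k‖ ^ 2) * Real.sqrt (∑ i ∈ I, ‖Y i‖ ^ 2) := by
  have h : ∑ i ∈ I, ∑ k ∈ J, inner ℂ (P.e i) (P.f k) * X k * Y i =
      inner ℂ (∑ i ∈ I, conj (Y i) • P.e i) (∑ k ∈ J, X k • P.f k) := by
    rw [sum_inner]
    apply Finset.sum_congr rfl
    intro i _
    rw [inner_smul_left, inner_sum, Finset.mul_sum]
    apply Finset.sum_congr rfl
    intro k _
    rw [inner_smul_right]
    simp only [RingHomCompTriple.comp_apply, RingHom.id_apply]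
    ring
  rw [h]
  refine (norm_inner_le_norm _ _).trans ?_
  rw [norm_sum_smul P.he, norm_sum_smul P.hf, mul_comm]
  apply le_of_eq
  congr 2
  exact Finset.sum_congr rfl fun i _ => by rw [RCLike.norm_conj]

theorem Pair.bil1 (I J : Finset ℕ) (X Y : ℕ → ℂ) :
    ‖∑ i ∈ I, ∑ k ∈ J, inner ℂ (P.e i) (P.f k) * ((P.σ k / P.ρ i : ℝ) : ℂ) * X k * Y i‖ ≤
      Real.sqrt (∑ k ∈ J, ‖X k‖ ^ 2) * Real.sqrt (∑ i ∈ I, ‖Y i‖ ^ 2) := by
  set v : E := ∑ i ∈ I, (conj (Y i) / (P.ρ i : ℂ)) • P.e i with hv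
  have hk : ∀ k, (P.σ k : ℂ) * inner ℂ v (P.f k) = inner ℂ (P.f k) (P.K v) := by
    intro k
    rw [← inner_smul_right, ← P.Kf, ← inner_conj_symm, P.Ks, inner_conj_symm]
  have h : ∑ i ∈ I, ∑ k ∈ J, inner ℂ (P.e i) (P.f k) * ((P.σ k / P.ρ i : ℝ) : ℂ) * X k * Y i =
      inner ℂ (∑ k ∈ J, conj (X k) • P.f k) (P.K v) := by
    rw [Finset.sum_comm, sum_inner]
    apply Finset.sum_congr rfl
    intro k _
    rw [inner_smul_left, ← hk, hv, sum_inner, Finset.mul_sum, Finset.mul_sum]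
    apply Finset.sum_congr rfl
    intro i _
    rw [inner_smul_left]
    simp only [RingHomCompTriple.comp_apply, RingHom.id_apply, map_div₀, Complex.conj_ofReal]
    push_cast
    ring
  have hHv : P.H v = ∑ i ∈ I, Y i • P.e i := by
    rw [hv, map_sum]
    apply Finset.sum_congr rfl
    intro i _
    rw [map_smulₛₗ, P.He, smul_smul]
    congr 1
    have := P.hρ i
    have h0 : (P.ρ i : ℂ) ≠ 0 := by exact_mod_cast this.ne'
    simp only [map_div₀, RingHomCompTriple.comp_apply, RingHom.id_apply, Complex.conj_ofReal]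
    field_simp
  rw [h]
  refine (norm_inner_le_norm _ _).trans ?_
  have h1 : ‖P.K v‖ ≤ Real.sqrt (∑ i ∈ I, ‖Y i‖ ^ 2) := by
    refine (P.KH v).trans ?_
    rw [hHv, norm_sum_smul P.he]
  rw [norm_sum_smul P.hf]
  have h2 : ∑ k ∈ J, ‖conj (X k)‖ ^ 2 = ∑ k ∈ J, ‖X k‖ ^ 2 :=
    Finset.sum_congr rfl fun i _ => by rw [RCLike.norm_conj]
  rw [h2]
  exact mul_le_mul_of_nonneg_left h1 (Real.sqrt_nonneg _)

/-- The strict contraction. -/
theorem exists_contraction {η : ℝ} (hη : 0 < η) : ∃ q : ℝ, 0 ≤ q ∧ q < 1 ∧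
    ∀ (E : Type) [NormedAddCommGroup E] [InnerProductSpace ℂ E] (P : Pair E),
    (∀ i k, η ≤ |Real.log (P.σ k / P.ρ i)|) → ∀ (I J : Finset ℕ) (X Y : ℕ → ℂ),
    ‖∑ i ∈ I, ∑ k ∈ J, inner ℂ (P.e i) (P.f k) * ((Real.sqrt (P.σ k / P.ρ i) : ℝ) : ℂ) *
      X k * Y i‖ ≤ q * (Real.sqrt (∑ k ∈ J, ‖X k‖ ^ 2) * Real.sqrt (∑ i ∈ I, ‖Y i‖ ^ 2)) := by
  obtain ⟨c, hc, hgap⟩ := gap_norm hη
  refine ⟨max 0 (1 - c), le_max_left _ _, max_lt (by norm_num) (by linarith), ?_⟩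
  intro E _ _ P hη2 I J X Y
  set nX := Real.sqrt (∑ k ∈ J, ‖X k‖ ^ 2) with hnX
  set nY := Real.sqrt (∑ i ∈ I, ‖Y i‖ ^ 2) with hnY
  have hX0 : 0 ≤ nX := Real.sqrt_nonneg _
  have hY0 : 0 ≤ nY := Real.sqrt_nonneg _
  rcases hX0.eq_or_lt with hX | hX
  · have hz : ∀ k ∈ J, X k = 0 := by
      intro k hk
      have h1 : ∑ k ∈ J, ‖X k‖ ^ 2 = 0 := by
        rw [← Real.sqrt_eq_zero (Finset.sum_nonneg fun i _ => by positivity)]
        exact hX.symm
      have h2 := (Finset.sum_eq_zero_iff_of_nonneg (fun i _ => by positivity)).1 h1 k hk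
      simpa using h2
    rw [Finset.sum_eq_zero]
    · rw [norm_zero]; positivity
    · intro i _
      apply Finset.sum_eq_zero
      intro k hk
      rw [hz k hk]; ring
  rcases hY0.eq_or_lt with hY | hY
  · have hz : ∀ k ∈ I, Y k = 0 := by
      intro k hk
      have h1 : ∑ k ∈ I, ‖Y k‖ ^ 2 = 0 := by
        rw [← Real.sqrt_eq_zero (Finset.sum_nonneg fun i _ => by positivity)]
        exact hY.symm
      have h2 := (Finset.sum_eq_zero_iff_of_nonneg (fun i _ => by positivity)).1 h1 k hk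
      simpa using h2
    rw [Finset.sum_eq_zero]
    · rw [norm_zero]; positivity
    · intro i hi
      apply Finset.sum_eq_zero
      intro k _
      rw [hz i hi]; ring
  set a : ℕ × ℕ → ℂ := fun p => inner ℂ (P.e p.1) (P.f p.2) * (X p.2 / nX) * (Y p.1 / nY) with ha
  set l : ℕ × ℕ → ℝ := fun p => Real.log (P.σ p.2 / P.ρ p.1) with hl
  have hexp : ∀ (p : ℕ × ℕ) (z : ℂ), Complex.exp (l p * z) =
      Complex.exp (Real.log (P.σ p.2) * z) * Complex.exp (-(Real.log (P.ρ p.1) * z)) := by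
    intro p z
    rw [hl]
    simp only
    rw [Real.log_div (P.hσ _).ne' (P.hρ _).ne', ← Complex.exp_add]
    push_cast
    ring_nf
  have hnormX : ∀ (g : ℕ → ℂ), (∀ k, ‖g k‖ = 1) →
      Real.sqrt (∑ k ∈ J, ‖(X k / nX) * g k‖ ^ 2) = 1 := by
    intro g hg
    have : ∑ k ∈ J, ‖(X k / nX) * g k‖ ^ 2 = (∑ k ∈ J, ‖X k‖ ^ 2) / nX ^ 2 := by
      rw [Finset.sum_div]
      apply Finset.sum_congr rfl
      intro k _
      rw [norm_mul, hg, mul_one, norm_div, Complex.norm_real, Real.norm_eq_abs, abs_of_pos hX,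
        div_pow]
    rw [this, hnX, Real.sq_sqrt (Finset.sum_nonneg fun i _ => by positivity), div_self, Real.sqrt_one]
    intro h0
    rw [hnX, h0, Real.sqrt_zero] at hX
    exact lt_irrefl _ hX
  have hnormY : ∀ (g : ℕ → ℂ), (∀ k, ‖g k‖ = 1) →
      Real.sqrt (∑ i ∈ I, ‖(Y i / nY) * g i‖ ^ 2) = 1 := by
    intro g hg
    have : ∑ k ∈ I, ‖(Y k / nY) * g k‖ ^ 2 = (∑ k ∈ I, ‖Y k‖ ^ 2) / nY ^ 2 := by
      rw [Finset.sum_div]
      apply Finset.sum_congr rfl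
      intro k _
      rw [norm_mul, hg, mul_one, norm_div, Complex.norm_real, Real.norm_eq_abs, abs_of_pos hY,
        div_pow]
    rw [this, hnY, Real.sq_sqrt (Finset.sum_nonneg fun i _ => by positivity), div_self, Real.sqrt_one]
    intro h0
    rw [hnY, h0, Real.sqrt_zero] at hY
    exact lt_irrefl _ hY
  have hunit : ∀ (r : ℝ) (z : ℂ), z.re = 0 → ‖Complex.exp (r * z)‖ = 1 := by
    intro r z hz
    rw [Complex.norm_exp, Complex.re_ofReal_mul, hz, mul_zero, Real.exp_zero]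
  have h0 : ∀ z : ℂ, z.re = 0 → ‖∑ p ∈ I ×ˢ J, a p * Complex.exp (l p * z)‖ ≤ 1 := by
    intro z hz
    rw [Finset.sum_product]
    have := P.bil0 I J (fun k => (X k / nX) * Complex.exp (Real.log (P.σ k) * z))
      (fun i => (Y i / nY) * Complex.exp (-(Real.log (P.ρ i) * z)))
    rw [hnormX _ (fun k => hunit _ z hz), hnormY _ (fun i => by
      have := hunit (-(Real.log (P.ρ i))) z hz
      rwa [Complex.ofReal_neg, neg_mul] at this), mul_one] at this
    refine le_trans (le_of_eq ?_) this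
    congr 1
    apply Finset.sum_congr rfl
    intro i _
    apply Finset.sum_congr rfl
    intro k _
    rw [hexp]
    simp only [ha]
    ring
  have h1 : ∀ z : ℂ, z.re = 1 → ‖∑ p ∈ I ×ˢ J, a p * Complex.exp (l p * z)‖ ≤ 1 := by
    intro z hz
    rw [Finset.sum_product]
    have hz1 : (z - 1).re = 0 := by simp [hz]
    have := P.bil1 I J (fun k => (X k / nX) * Complex.exp (Real.log (P.σ k) * (z - 1)))
      (fun i => (Y i / nY) * Complex.exp (-(Real.log (P.ρ i) * (z - 1))))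
    rw [hnormX _ (fun k => hunit _ _ hz1), hnormY _ (fun i => by
      have := hunit (-(Real.log (P.ρ i))) _ hz1
      rwa [Complex.ofReal_neg, neg_mul] at this), mul_one] at this
    refine le_trans (le_of_eq ?_) this
    congr 1
    apply Finset.sum_congr rfl
    intro i _
    apply Finset.sum_congr rfl
    intro k _
    have e1 : Complex.exp (l (i, k) * z) = ((P.σ k / P.ρ i : ℝ) : ℂ) *
        Complex.exp (l (i, k) * (z - 1)) := by
      have : (l (i, k) : ℂ) * z = (l (i, k) : ℂ) + l (i, k) * (z - 1) := by ring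
      rw [this, Complex.exp_add, ← Complex.ofReal_exp]
      congr 2
      simp only [hl]
      rw [Real.exp_log (div_pos (P.hσ _) (P.hρ _))]
    rw [e1, hexp]
    simp only [ha]
    ring
  have hfin := hgap (ℕ × ℕ) (I ×ˢ J) a l (fun p _ => hη2 p.1 p.2) h0 h1
  rw [Finset.sum_product] at hfin
  have e2 : ∑ i ∈ I, ∑ k ∈ J, inner ℂ (P.e i) (P.f k) * ((Real.sqrt (P.σ k / P.ρ i) : ℝ) : ℂ) *
      X k * Y i = (nX * nY : ℂ) * ∑ i ∈ I, ∑ k ∈ J, a (i, k) * Complex.exp (l (i, k) * (1/2)) := by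
    rw [Finset.mul_sum]
    apply Finset.sum_congr rfl
    intro i _
    rw [Finset.mul_sum]
    apply Finset.sum_congr rfl
    intro k _
    have e3 : Complex.exp (l (i, k) * (1/2)) = ((Real.sqrt (P.σ k / P.ρ i) : ℝ) : ℂ) := by
      have : (l (i, k) : ℂ) * (1/2) = ((l (i, k) / 2 : ℝ) : ℂ) := by push_cast; ring
      rw [this, ← Complex.ofReal_exp]
      congr 1
      simp only [hl]
      rw [Real.sqrt_eq_rpow, Real.rpow_def_of_pos (div_pos (P.hσ _) (P.hρ _))]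
      ring_nf
    rw [e3]
    simp only [ha]
    have hX' : (nX : ℂ) ≠ 0 := by exact_mod_cast hX.ne'
    have hY' : (nY : ℂ) ≠ 0 := by exact_mod_cast hY.ne'
    field_simp
  rw [e2, norm_mul]
  have e4 : ‖(nX * nY : ℂ)‖ = nX * nY := by
    rw [← Complex.ofReal_mul, Complex.norm_real, Real.norm_eq_abs, abs_of_pos (by positivity)]
  rw [e4, mul_comm]
  apply mul_le_mul_of_nonneg_right _ (by positivity)
  exact hfin.trans (le_max_right _ _)

end

end Pool.Agent.Q85.HT
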