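import Mathlib
import Pool.Agent.Q85.HT.C

set_option autoImplicit false

open Complex Filter Topology ComplexConjugate

namespace Pool.Agent.Q85.HT

noncomputable section

variable {E : Type*} [NormedAddCommGroup E] [InnerProductSpace ℂ E] [CompleteSpace E]

/-- Expansion of a vector of the range of a symmetric antilinear operator in an orthonormal
system whose orthogonal complement is killed by the operator. -/
theorem hasSum_expand {v : ℕ → E} (hv : Orthonormal ℂ v) (T : E →L⋆[ℂ] E)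
    (hT : ∀ x y, inner ℂ (T x) y = inner ℂ (T y) x)
    (hc : ∀ y, (∀ i, inner ℂ (v i) y = 0) → T y = 0) (x : E) :
    HasSum (fun i => inner ℂ (v i) (T x) • v i) (T x) := by
  have hs : Summable fun i => inner ℂ (v i) (T x) • v i := by
    have h := (hv.orthogonalFamily.summable_iff_norm_sq_summable
      (fun i => inner ℂ (v i) (T x))).2 (hv.inner_products_summable (T x))
    simpa [LinearIsometry.toSpanSingleton_apply] using h
  obtain ⟨w, hw⟩ := hs
  have h1 : ∀ j, inner ℂ (v j) w = inner ℂ (v j) (T x) := by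
    intro j
    have h2 := (innerSL ℂ (v j)).hasSum hw
    simp only [innerSL_apply_apply, inner_smul_right] at h2
    have h3 := hasSum_ite_eq j (inner ℂ (v j) (T x))
    refine h2.unique (h3.congr_fun ?_)
    intro i
    rw [orthonormal_iff_ite.1 hv]
    by_cases h : i = j
    · subst h; simp
    · rw [if_neg h, if_neg (fun h' => h h'.symm)]; simp
  have h4 : ∀ j, inner ℂ (v j) (T x - w) = 0 := by
    intro j
    rw [inner_sub_right, h1, sub_self]
  have h5 : T (T x - w) = 0 := hc _ h4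
  have h6 : inner ℂ (T x) (T x - w) = (0:ℂ) := by
    rw [hT, h5, inner_zero_left]
  have h7 : inner ℂ (T x - w) w = (0:ℂ) := by
    have h2 := (innerSL ℂ (T x - w)).hasSum hw
    simp only [innerSL_apply_apply, inner_smul_right] at h2
    refine h2.unique ?_
    have : (fun i => inner ℂ (v i) (T x) * inner ℂ (T x - w) (v i)) = fun _ => (0:ℂ) := by
      ext i
      rw [← inner_conj_symm (T x - w) (v i), h4]; simp
    rw [this]
    exact hasSum_zero
  have h8 : T x - w = 0 := by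
    rw [← inner_self_eq_zero (𝕜 := ℂ), inner_sub_right]
    rw [h7, sub_zero, ← inner_conj_symm, h6, map_zero]
  rw [sub_eq_zero] at h8
  rw [← h8] at hw
  exact hw

/-- Complete pairs. -/
structure Good (P : Pair E) (S : E → E) (R : ℝ) : Prop where
  ce : ∀ y, (∀ i, inner ℂ (P.e i) y = 0) → P.H y = 0
  cf : ∀ y, (∀ i, inner ℂ (P.f i) y = 0) → P.K y = 0
  KS : ∀ x, P.K x = P.H (S x)
  hR : ∀ i, P.ρ i ≤ R
  hR' : ∀ i, P.σ i ≤ R

/-- the quadratic form of `|H|` -/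
def Pair.a (P : Pair E) (p : E) : ℝ := ∑' i, P.ρ i * ‖inner ℂ (P.e i) p‖ ^ 2

/-- the quadratic form of `|K|` -/
def Pair.b (P : Pair E) (p : E) : ℝ := ∑' i, P.σ i * ‖inner ℂ (P.f i) p‖ ^ 2

variable {P : Pair E} {S : E → E} {R : ℝ}

theorem Good.suma (G : Good P S R) (p : E) :
    Summable fun i => P.ρ i * ‖inner ℂ (P.e i) p‖ ^ 2 := by
  refine Summable.of_nonneg_of_le (fun i => mul_nonneg (P.hρ i).le (by positivity)) (fun i => ?_)
    ((P.he.inner_products_summable p).mul_left R)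
  exact mul_le_mul_of_nonneg_right (G.hR i) (by positivity)

theorem Good.sumb (G : Good P S R) (p : E) :
    Summable fun i => P.σ i * ‖inner ℂ (P.f i) p‖ ^ 2 := by
  refine Summable.of_nonneg_of_le (fun i => mul_nonneg (P.hσ i).le (by positivity)) (fun i => ?_)
    ((P.hf.inner_products_summable p).mul_left R)
  exact mul_le_mul_of_nonneg_right (G.hR' i) (by positivity)

theorem Pair.a_nonneg (P : Pair E) (p : E) : 0 ≤ P.a p :=
  tsum_nonneg fun i => mul_nonneg (P.hρ i).le (by positivity)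

theorem Pair.b_nonneg (P : Pair E) (p : E) : 0 ≤ P.b p :=
  tsum_nonneg fun i => mul_nonneg (P.hσ i).le (by positivity)

theorem Good.a_le (G : Good P S R) (p : E) : P.a p ≤ R * ‖p‖ ^ 2 := by
  have hR0 : 0 ≤ R := (P.hρ 0).le.trans (G.hR 0)
  calc P.a p ≤ ∑' i, R * ‖inner ℂ (P.e i) p‖ ^ 2 := by
        apply (G.suma p).tsum_le_tsum _ ((P.he.inner_products_summable p).mul_left R)
        intro i
        exact mul_le_mul_of_nonneg_right (G.hR i) (by positivity)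
    _ = R * ∑' i, ‖inner ℂ (P.e i) p‖ ^ 2 := tsum_mul_left
    _ ≤ R * ‖p‖ ^ 2 := mul_le_mul_of_nonneg_left (P.he.tsum_inner_products_le p) hR0

/-- contraction hypothesis -/
def Contr (P : Pair E) (q : ℝ) : Prop := ∀ (I J : Finset ℕ) (X Y : ℕ → ℂ),
    ‖∑ i ∈ I, ∑ k ∈ J, inner ℂ (P.e i) (P.f k) * ((Real.sqrt (P.σ k / P.ρ i) : ℝ) : ℂ) *
      X k * Y i‖ ≤ q * (Real.sqrt (∑ k ∈ J, ‖X k‖ ^ 2) * Real.sqrt (∑ i ∈ I, ‖Y i‖ ^ 2))

theorem le_of_sq_le {A q s : ℝ} (hA : 0 ≤ A) (hq : 0 ≤ q) (hs : 0 ≤ s)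
    (h : A ≤ q * (Real.sqrt A * Real.sqrt s)) : A ≤ q ^ 2 * s := by
  rcases hA.eq_or_lt with h0 | h0
  · rw [← h0]; positivity
  have h1 : 0 < Real.sqrt A := Real.sqrt_pos.2 h0
  have h2 : Real.sqrt A * Real.sqrt A = A := Real.mul_self_sqrt hA
  have h3 : Real.sqrt A ≤ q * Real.sqrt s := by
    apply le_of_mul_le_mul_left _ h1
    calc Real.sqrt A * Real.sqrt A = A := h2
      _ ≤ q * (Real.sqrt A * Real.sqrt s) := h
      _ = Real.sqrt A * (q * Real.sqrt s) := by ring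
  calc A = Real.sqrt A ^ 2 := by rw [sq, h2]
    _ ≤ (q * Real.sqrt s) ^ 2 := by gcongr
    _ = q ^ 2 * s := by rw [mul_pow, Real.sq_sqrt hs]

theorem Good.f_expand (G : Good P S R) (k : ℕ) :
    HasSum (fun i => inner ℂ (P.e i) (P.f k) • P.e i) (P.f k) := by
  have h0 : (P.σ k : ℂ) ≠ 0 := by exact_mod_cast (P.hσ k).ne'
  have h1 : P.f k = P.H (S ((P.σ k : ℂ)⁻¹ • P.f k)) := by
    rw [← G.KS, map_smulₛₗ, P.Kf, smul_smul, map_inv₀, Complex.conj_ofReal, inv_mul_cancel₀ h0,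
      one_smul]
  have h2 := hasSum_expand P.he P.H P.Hs G.ce (S ((P.σ k : ℂ)⁻¹ • P.f k))
  rw [← h1] at h2
  exact h2

theorem Good.b_le (G : Good P S R) {q : ℝ} (hq : 0 ≤ q) (hC : Contr P q) (p : E) :
    P.b p ≤ q ^ 2 * P.a p := by
  apply tsum_le_of_sum_le' (mul_nonneg (by positivity) (P.a_nonneg p))
  intro J
  set A : ℝ := ∑ k ∈ J, P.σ k * ‖inner ℂ (P.f k) p‖ ^ 2 with hA
  have hA0 : 0 ≤ A := Finset.sum_nonneg fun i _ => mul_nonneg (P.hσ i).le (by positivity)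
  apply le_of_sq_le hA0 hq (P.a_nonneg p)
  set X : ℕ → ℂ := fun k => (Real.sqrt (P.σ k) : ℂ) * inner ℂ (P.f k) p with hX
  set Y : ℕ → ℂ := fun i => (Real.sqrt (P.ρ i) : ℂ) * inner ℂ p (P.e i) with hY
  have hXA : ∑ k ∈ J, ‖X k‖ ^ 2 = A := by
    rw [hA]
    apply Finset.sum_congr rfl
    intro k _
    simp only [hX]
    rw [norm_mul, mul_pow, Complex.norm_real, Real.norm_eq_abs, sq_abs, Real.sq_sqrt (P.hσ k).le]
  have hYA : ∀ I : Finset ℕ, ∑ i ∈ I, ‖Y i‖ ^ 2 ≤ P.a p := by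
    intro I
    have : ∑ i ∈ I, ‖Y i‖ ^ 2 = ∑ i ∈ I, P.ρ i * ‖inner ℂ (P.e i) p‖ ^ 2 := by
      apply Finset.sum_congr rfl
      intro k _
      simp only [hY]
      rw [norm_mul, mul_pow, Complex.norm_real, Real.norm_eq_abs, sq_abs,
        Real.sq_sqrt (P.hρ k).le, norm_inner_symm]
    rw [this]
    exact (G.suma p).sum_le_tsum I (fun i _ => mul_nonneg (P.hρ i).le (by positivity))
  have hlim : Tendsto (fun I : Finset ℕ => ∑ i ∈ I, ∑ k ∈ J, inner ℂ (P.e i) (P.f k) *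
      ((Real.sqrt (P.σ k / P.ρ i) : ℝ) : ℂ) * X k * Y i) atTop (𝓝 (A : ℂ)) := by
    have h1 : ∀ k, Tendsto (fun I : Finset ℕ => ∑ i ∈ I, inner ℂ (P.e i) (P.f k) *
        inner ℂ p (P.e i)) atTop (𝓝 (inner ℂ p (P.f k))) := by
      intro k
      have := (innerSL ℂ p).hasSum (G.f_expand k)
      simp only [innerSL_apply_apply, inner_smul_right] at this
      exact this
    have h2 := tendsto_finsetSum J (fun k _ => (h1 k).const_mul ((Real.sqrt (P.σ k) : ℂ) * X k))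
    have h3 : ∑ k ∈ J, (Real.sqrt (P.σ k) : ℂ) * X k * inner ℂ p (P.f k) = (A : ℂ) := by
      rw [hA]
      push_cast
      apply Finset.sum_congr rfl
      intro k _
      simp only [hX]
      rw [← inner_conj_symm p (P.f k)]
      have : (Real.sqrt (P.σ k) : ℂ) * Real.sqrt (P.σ k) = (P.σ k : ℂ) := by
        rw [← Complex.ofReal_mul, Real.mul_self_sqrt (P.hσ k).le]
      have h4 : inner ℂ (P.f k) p * conj (inner ℂ (P.f k) p) = ((‖inner ℂ (P.f k) p‖ : ℂ)) ^ 2 :=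
        Complex.mul_conj' _
      calc _ = ((Real.sqrt (P.σ k) : ℂ) * Real.sqrt (P.σ k)) *
          (inner ℂ (P.f k) p * conj (inner ℂ (P.f k) p)) := by ring
        _ = _ := by rw [this, h4]
    rw [h3] at h2
    refine h2.congr ?_
    intro I
    rw [Finset.sum_comm]
    apply Finset.sum_congr rfl
    intro k _
    rw [Finset.mul_sum]
    apply Finset.sum_congr rfl
    intro i _
    have h5 : (Real.sqrt (P.σ k / P.ρ i) : ℂ) * (Real.sqrt (P.ρ i) : ℂ) = Real.sqrt (P.σ k) := by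
      rw [← Complex.ofReal_mul, ← Real.sqrt_mul (div_nonneg (P.hσ k).le (P.hρ i).le),
        div_mul_cancel₀ _ (P.hρ i).ne']
    rw [← h5]
    simp only [hY]
    ring
  have hlim2 := hlim.norm
  have hfin : ‖(A : ℂ)‖ ≤ q * (Real.sqrt A * Real.sqrt (P.a p)) := by
    apply le_of_tendsto hlim2
    refine Eventually.of_forall fun I => ?_
    refine (hC I J X Y).trans ?_
    rw [hXA]
    apply mul_le_mul_of_nonneg_left _ hq
    apply mul_le_mul_of_nonneg_left _ (Real.sqrt_nonneg _)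
    exact Real.sqrt_le_sqrt (hYA I)
  rwa [Complex.norm_real, Real.norm_eq_abs, abs_of_nonneg hA0] at hfin

theorem Good.a_shift_le (G : Good P S R) {q : ℝ} (hq : 0 ≤ q) (hC : Contr P q) (p : E) :
    P.a (S p) ≤ q ^ 2 * P.b p := by
  apply tsum_le_of_sum_le' (mul_nonneg (by positivity) (P.b_nonneg p))
  intro I
  set A : ℝ := ∑ i ∈ I, P.ρ i * ‖inner ℂ (P.e i) (S p)‖ ^ 2 with hA
  have hA0 : 0 ≤ A := Finset.sum_nonneg fun i _ => mul_nonneg (P.hρ i).le (by positivity)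
  apply le_of_sq_le hA0 hq (P.b_nonneg p)
  set X : ℕ → ℂ := fun k => (Real.sqrt (P.σ k) : ℂ) * inner ℂ p (P.f k) with hX
  set Y : ℕ → ℂ := fun i => (Real.sqrt (P.ρ i) : ℂ) * inner ℂ (P.e i) (S p) with hY
  have hYA : ∑ i ∈ I, ‖Y i‖ ^ 2 = A := by
    rw [hA]
    apply Finset.sum_congr rfl
    intro k _
    simp only [hY]
    rw [norm_mul, mul_pow, Complex.norm_real, Real.norm_eq_abs, sq_abs, Real.sq_sqrt (P.hρ k).le]
  have hXA : ∀ J : Finset ℕ, ∑ k ∈ J, ‖X k‖ ^ 2 ≤ P.b p := by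
    intro J
    have : ∑ k ∈ J, ‖X k‖ ^ 2 = ∑ k ∈ J, P.σ k * ‖inner ℂ (P.f k) p‖ ^ 2 := by
      apply Finset.sum_congr rfl
      intro k _
      simp only [hX]
      rw [norm_mul, mul_pow, Complex.norm_real, Real.norm_eq_abs, sq_abs,
        Real.sq_sqrt (P.hσ k).le, norm_inner_symm]
    rw [this]
    exact (G.sumb p).sum_le_tsum J (fun i _ => mul_nonneg (P.hσ i).le (by positivity))
  have hK : ∀ i, (P.ρ i : ℂ) * inner ℂ (P.e i) (S p) = inner ℂ (P.K p) (P.e i) := by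
    intro i
    rw [G.KS, P.Hs, P.He, inner_smul_left, Complex.conj_ofReal]
  have hKf : ∀ k, inner ℂ (P.f k) (P.K p) = (P.σ k : ℂ) * inner ℂ p (P.f k) := by
    intro k
    rw [← inner_conj_symm, P.Ks, P.Kf, inner_smul_left, Complex.conj_ofReal, map_mul,
      Complex.conj_ofReal, inner_conj_symm]
  have hexp : HasSum (fun k => inner ℂ (P.f k) (P.K p) • P.f k) (P.K p) :=
    hasSum_expand P.hf P.K P.Ks G.cf p
  have hlim : Tendsto (fun J : Finset ℕ => ∑ i ∈ I, ∑ k ∈ J, inner ℂ (P.e i) (P.f k) *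
      ((Real.sqrt (P.σ k / P.ρ i) : ℝ) : ℂ) * X k * Y i) atTop (𝓝 (A : ℂ)) := by
    have h1 : ∀ i, Tendsto (fun J : Finset ℕ => ∑ k ∈ J, inner ℂ (P.f k) (P.K p) *
        inner ℂ (P.e i) (P.f k)) atTop (𝓝 (inner ℂ (P.e i) (P.K p))) := by
      intro i
      have := (innerSL ℂ (P.e i)).hasSum hexp
      simp only [innerSL_apply_apply, inner_smul_right] at this
      exact this
    have h2 := tendsto_finsetSum I (fun i _ => (h1 i).const_mul
      (((Real.sqrt (P.ρ i) : ℂ))⁻¹ * Y i))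
    have h3 : ∑ i ∈ I, ((Real.sqrt (P.ρ i) : ℂ))⁻¹ * Y i * inner ℂ (P.e i) (P.K p) = (A : ℂ) := by
      rw [hA]
      push_cast
      apply Finset.sum_congr rfl
      intro i _
      simp only [hY]
      have h0 : (Real.sqrt (P.ρ i) : ℂ) ≠ 0 := by
        exact_mod_cast (Real.sqrt_pos.2 (P.hρ i)).ne'
      rw [← inner_conj_symm (P.e i) (P.K p), ← hK i, map_mul, Complex.conj_ofReal]
      have h4 : inner ℂ (P.e i) (S p) * conj (inner ℂ (P.e i) (S p)) =
        ((‖inner ℂ (P.e i) (S p)‖ : ℂ)) ^ 2 := Complex.mul_conj' _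
      rw [← h4]
      field_simp
    rw [h3] at h2
    refine h2.congr ?_
    intro J
    apply Finset.sum_congr rfl
    intro i _
    rw [Finset.mul_sum]
    apply Finset.sum_congr rfl
    intro k _
    have h0 : (Real.sqrt (P.ρ i) : ℂ) ≠ 0 := by
      exact_mod_cast (Real.sqrt_pos.2 (P.hρ i)).ne'
    have h5 : (Real.sqrt (P.σ k / P.ρ i) : ℂ) = Real.sqrt (P.σ k) / Real.sqrt (P.ρ i) := by
      rw [← Complex.ofReal_div, ← Real.sqrt_div (P.hσ k).le]
    have h6 : (Real.sqrt (P.σ k) : ℂ) * Real.sqrt (P.σ k) = (P.σ k : ℂ) := by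
      rw [← Complex.ofReal_mul, Real.mul_self_sqrt (P.hσ k).le]
    rw [h5, hKf]
    simp only [hX]
    rw [← h6]
    field_simp
  have hlim2 := hlim.norm
  have hfin : ‖(A : ℂ)‖ ≤ q * (Real.sqrt A * Real.sqrt (P.b p)) := by
    apply le_of_tendsto hlim2
    refine Eventually.of_forall fun J => ?_
    refine (hC I J X Y).trans ?_
    rw [hYA, mul_comm (Real.sqrt A)]
    apply mul_le_mul_of_nonneg_left _ hq
    apply mul_le_mul_of_nonneg_right _ (Real.sqrt_nonneg _)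
    exact Real.sqrt_le_sqrt (hXA J)
  rwa [Complex.norm_real, Real.norm_eq_abs, abs_of_nonneg hA0] at hfin

theorem Good.inner_le (G : Good P S R) (p p' : E) :
    ‖inner ℂ p' (P.H p)‖ ≤ Real.sqrt (P.a p) * Real.sqrt (P.a p') := by
  have hexp : HasSum (fun k => inner ℂ (P.e k) (P.H p) • P.e k) (P.H p) :=
    hasSum_expand P.he P.H P.Hs G.ce p
  have hHe : ∀ k, inner ℂ (P.e k) (P.H p) = (P.ρ k : ℂ) * inner ℂ p (P.e k) := by
    intro k
    rw [← inner_conj_symm, P.Hs, P.He, inner_smul_left, Complex.conj_ofReal, map_mul,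
      Complex.conj_ofReal, inner_conj_symm]
  have h1 := (innerSL ℂ p').hasSum hexp
  simp only [innerSL_apply_apply, inner_smul_right] at h1
  apply le_of_tendsto (Filter.Tendsto.norm h1)
  refine Eventually.of_forall fun I => ?_
  calc ‖∑ i ∈ I, inner ℂ (P.e i) (P.H p) * inner ℂ p' (P.e i)‖
      ≤ ∑ i ∈ I, (Real.sqrt (P.ρ i) * ‖inner ℂ (P.e i) p‖) *
          (Real.sqrt (P.ρ i) * ‖inner ℂ (P.e i) p'‖) := by
        refine (norm_sum_le _ _).trans (Finset.sum_le_sum fun i _ => ?_)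
        rw [hHe, norm_mul, norm_mul, Complex.norm_real, Real.norm_eq_abs, abs_of_pos (P.hρ i),
          norm_inner_symm p, norm_inner_symm p']
        have h6 : Real.sqrt (P.ρ i) * Real.sqrt (P.ρ i) = P.ρ i := Real.mul_self_sqrt (P.hρ i).le
        calc _ = (Real.sqrt (P.ρ i) * Real.sqrt (P.ρ i)) * ‖inner ℂ (P.e i) p‖ *
            ‖inner ℂ (P.e i) p'‖ := by rw [h6]
          _ ≤ _ := le_of_eq (by ring)
    _ ≤ Real.sqrt (∑ i ∈ I, (Real.sqrt (P.ρ i) * ‖inner ℂ (P.e i) p‖) ^ 2) *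
          Real.sqrt (∑ i ∈ I, (Real.sqrt (P.ρ i) * ‖inner ℂ (P.e i) p'‖) ^ 2) :=
        Real.sum_mul_le_sqrt_mul_sqrt _ _ _
    _ ≤ Real.sqrt (P.a p) * Real.sqrt (P.a p') := by
        have h7 : ∀ p : E, Real.sqrt (∑ i ∈ I, (Real.sqrt (P.ρ i) * ‖inner ℂ (P.e i) p‖) ^ 2) ≤
            Real.sqrt (P.a p) := by
          intro p
          apply Real.sqrt_le_sqrt
          have : ∑ i ∈ I, (Real.sqrt (P.ρ i) * ‖inner ℂ (P.e i) p‖) ^ 2 =
              ∑ i ∈ I, P.ρ i * ‖inner ℂ (P.e i) p‖ ^ 2 := by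
            apply Finset.sum_congr rfl
            intro i _
            rw [mul_pow, Real.sq_sqrt (P.hρ i).le]
          rw [this]
          exact (G.suma p).sum_le_tsum I (fun i _ => mul_nonneg (P.hρ i).le (by positivity))
        exact mul_le_mul (h7 p) (h7 p') (Real.sqrt_nonneg _) (Real.sqrt_nonneg _)

theorem Good.a_iter (G : Good P S R) {q : ℝ} (hq : 0 ≤ q) (hC : Contr P q) (p : E) (n : ℕ) :
    P.a (S^[n] p) ≤ q ^ (4 * n) * P.a p := by
  induction n with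
  | zero => simp
  | succ n ih =>
    rw [Function.iterate_succ_apply']
    calc P.a (S (S^[n] p)) ≤ q ^ 2 * P.b (S^[n] p) := G.a_shift_le hq hC _
      _ ≤ q ^ 2 * (q ^ 2 * P.a (S^[n] p)) := by
        apply mul_le_mul_of_nonneg_left _ (by positivity)
        exact G.b_le hq hC _
      _ ≤ q ^ 2 * (q ^ 2 * (q ^ (4 * n) * P.a p)) := by gcongr
      _ = _ := by ring

theorem Good.final (G : Good P S R) {q : ℝ} (hq : 0 ≤ q) (hC : Contr P q) (p : E) (n : ℕ) :
    ‖inner ℂ p (P.H (S^[n] p))‖ ≤ R * ‖p‖ ^ 2 * (q ^ 2) ^ n := by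
  have hR0 : 0 ≤ R := (P.hρ 0).le.trans (G.hR 0)
  have h1 := G.inner_le (S^[n] p) p
  have h2 : Real.sqrt (P.a (S^[n] p)) ≤ (q ^ 2) ^ n * Real.sqrt (P.a p) := by
    calc Real.sqrt (P.a (S^[n] p)) ≤ Real.sqrt (q ^ (4 * n) * P.a p) :=
          Real.sqrt_le_sqrt (G.a_iter hq hC p n)
      _ = (q ^ 2) ^ n * Real.sqrt (P.a p) := by
        rw [Real.sqrt_mul (by positivity)]
        congr 1
        have : q ^ (4 * n) = ((q ^ 2) ^ n) ^ 2 := by ring
        rw [this, Real.sqrt_sq (by positivity)]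
  calc ‖inner ℂ p (P.H (S^[n] p))‖ ≤ Real.sqrt (P.a (S^[n] p)) * Real.sqrt (P.a p) := h1
    _ ≤ ((q ^ 2) ^ n * Real.sqrt (P.a p)) * Real.sqrt (P.a p) := by gcongr
    _ = (q ^ 2) ^ n * P.a p := by rw [mul_assoc, Real.mul_self_sqrt (P.a_nonneg p)]
    _ ≤ (q ^ 2) ^ n * (R * ‖p‖ ^ 2) := by
      apply mul_le_mul_of_nonneg_left (G.a_le p) (by positivity)
    _ = _ := by ring

end

end Pool.Agent.Q85.HT
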