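import Mathlib
import Pool.Agent.Q85.HT.D

set_option autoImplicit false

open Complex Filter Topology ComplexConjugate Module.End

namespace Pool.Agent.Q85.HT

noncomputable section

variable {E : Type*} [NormedAddCommGroup E] [InnerProductSpace ℂ E] [CompleteSpace E]

theorem spectral {T : E →L⋆[ℂ] E} (hs : ∀ x y, inner ℂ (T x) y = inner ℂ (T y) x)
    (hc : IsCompactOperator T) (s : ℕ → ℝ) (hpos : ∀ j, 0 < s j) (hinj : Function.Injective s)
    (h1 : ∀ j, ∃ e : E, e ≠ 0 ∧ ∀ h, T (T h) = ((s j ^ 2 : ℝ) : ℂ) • h ↔ ∃ c : ℂ, h = c • e)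
    (h2 : ∀ (t : ℝ) (h : E), 0 < t → h ≠ 0 → T (T h) = (t : ℂ) • h → ∃ j, t = s j ^ 2) :
    ∃ g : ℕ → E, Orthonormal ℂ g ∧ (∀ j, T (g j) = (s j : ℂ) • g j) ∧
      ∀ y, (∀ j, inner ℂ (g j) y = 0) → T y = 0 := by
  have key : ∀ j, ∃ g : E, ‖g‖ = 1 ∧ T g = (s j : ℂ) • g := by
    intro j
    obtain ⟨e, he, hee⟩ := h1 j
    have hTT : T (T e) = ((s j ^ 2 : ℝ) : ℂ) • e := (hee e).2 ⟨1, by simp⟩
    have hv : ∃ v : E, v ≠ 0 ∧ T v = (s j : ℂ) • v := by
      by_cases hz : T e + (s j : ℂ) • e = 0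
      · refine ⟨I • e, by simpa using he, ?_⟩
        have : T e = -((s j : ℂ) • e) := eq_neg_of_add_eq_zero_left hz
        rw [map_smulₛₗ, this, Complex.conj_I, smul_neg, neg_smul, neg_neg, smul_comm]
      · refine ⟨_, hz, ?_⟩
        rw [map_add, hTT, map_smulₛₗ, Complex.conj_ofReal, smul_add, smul_smul, add_comm]
        congr 2
        push_cast
        ring
    obtain ⟨v, hv0, hv1⟩ := hv
    have hn : ‖v‖ ≠ 0 := norm_ne_zero_iff.2 hv0
    refine ⟨((‖v‖⁻¹ : ℝ) : ℂ) • v, ?_, ?_⟩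
    · rw [norm_smul, Complex.norm_real, Real.norm_eq_abs, abs_of_nonneg (by positivity),
        inv_mul_cancel₀ hn]
    · rw [map_smulₛₗ, Complex.conj_ofReal, hv1, smul_comm]
  choose g hg1 hg2 using key
  have hTTg : ∀ j, T (T (g j)) = ((s j ^ 2 : ℝ) : ℂ) • g j := by
    intro j
    rw [hg2, map_smulₛₗ, hg2, smul_smul, Complex.conj_ofReal]
    congr 1
    push_cast
    ring
  have hsym : ∀ x y, inner ℂ (T (T x)) y = inner ℂ x (T (T y)) := by
    intro x y
    rw [hs (T x) y, ← inner_conj_symm x, hs (T y) x, inner_conj_symm]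
  refine ⟨g, ⟨hg1, ?_⟩, hg2, ?_⟩
  · intro i j hij
    have h3 := hsym (g i) (g j)
    rw [hTTg, hTTg, inner_smul_left, inner_smul_right, Complex.conj_ofReal] at h3
    have h4 : ((s i ^ 2 : ℝ) : ℂ) - ((s j ^ 2 : ℝ) : ℂ) ≠ 0 := by
      rw [← Complex.ofReal_sub, Complex.ofReal_ne_zero, sub_ne_zero]
      intro h5
      exact hij (hinj ((sq_eq_sq₀ (hpos i).le (hpos j).le).1 h5))
    have h5 : (((s i ^ 2 : ℝ) : ℂ) - ((s j ^ 2 : ℝ) : ℂ)) * inner ℂ (g i) (g j) = 0 := by
      rw [sub_mul, h3, sub_self]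
    exact (mul_eq_zero.1 h5).resolve_left h4
  · intro y hy
    let TT : E →L[ℂ] E := T.comp T
    have hTTa : ∀ x, TT x = T (T x) := fun x => rfl
    have hcTT : IsCompactOperator TT := hc.comp_clm T
    have hsTT : (TT : E →ₗ[ℂ] E).IsSymmetric := fun x z => hsym x z
    have hbot := ContinuousLinearMap.orthogonalComplement_iSup_eigenspaces_eq_bot hcTT hsTT
    have hmem : T y ∈ (⨆ μ, eigenspace (TT : Module.End ℂ E) μ)ᗮ := by
      rw [← Submodule.iInf_orthogonal, Submodule.mem_iInf]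
      intro μ
      rw [Submodule.mem_orthogonal]
      intro x hx
      rw [mem_eigenspace_iff] at hx
      have hx' : T (T x) = μ • x := hx
      by_cases hx0 : x = 0
      · rw [hx0, inner_zero_left]
      have hxn : (0:ℝ) < ‖x‖ ^ 2 := by positivity
      have h6 : inner ℂ x (T (T x)) = ((‖T x‖ ^ 2 : ℝ) : ℂ) := by
        rw [← inner_conj_symm, hs (T x) x, inner_self_eq_norm_sq_to_K]
        simp
      have hμ : μ = ((‖T x‖ ^ 2 / ‖x‖ ^ 2 : ℝ) : ℂ) := by
        rw [hx', inner_smul_right, inner_self_eq_norm_sq_to_K] at h6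
        push_cast
        rw [eq_div_iff (by exact_mod_cast hxn.ne')]
        simpa using h6
      have hswap : inner ℂ x (T y) = conj (inner ℂ (T x) y) := by
        rw [← inner_conj_symm, hs]
      rcases (div_nonneg (sq_nonneg ‖T x‖) (sq_nonneg ‖x‖)).eq_or_lt with h7 | h7
      · have h8 : ‖T x‖ ^ 2 = 0 := by
          rw [eq_comm, div_eq_zero_iff] at h7
          rcases h7 with h7 | h7
          · exact h7
          · exact absurd h7 hxn.ne'
        have h9 : T x = 0 := by simpa using h8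
        rw [hswap, h9, inner_zero_left, map_zero]
      · obtain ⟨j, hj⟩ := h2 _ x h7 hx0 (by rw [hx', hμ])
        obtain ⟨e, he, hee⟩ := h1 j
        obtain ⟨c, hc'⟩ := (hee x).1 (by rw [hx', hμ, hj])
        obtain ⟨d, hd⟩ := (hee (g j)).1 (hTTg j)
        have hd0 : d ≠ 0 := by
          intro h
          rw [h, zero_smul] at hd
          have := hg1 j
          rw [hd, norm_zero] at this
          exact zero_ne_one this
        have hx2 : x = (c * d⁻¹) • g j := by
          rw [hd, smul_smul, mul_assoc, inv_mul_cancel₀ hd0, mul_one, hc']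
        rw [hswap, hx2, map_smulₛₗ, hg2, inner_smul_left, inner_smul_left, hy, mul_zero, mul_zero,
          map_zero]
    rw [hbot, Submodule.mem_bot] at hmem
    exact hmem

end

end Pool.Agent.Q85.HT
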