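import Mathlib
import Pool.Agent.Q85.HT.F

set_option autoImplicit false

open Complex Filter Topology ComplexConjugate

namespace Pool.Agent.Q85.HT.G

noncomputable section

/-- The Hardy space `L²₊(𝕋)`; a function `u` is given by its Fourier coefficients
`û(0), û(1), …`, a square-summable sequence, and `‖u‖² = ∑ |û(n)|²`. -/
abbrev Hardy := lp (fun _ : ℕ => ℂ) 2

/-- `u ∈ H^{1/2}_+`: `∑ (1 + n) |û(n)|² < ∞`. -/
def InHhalf (u : Hardy) : Prop := Summable fun n : ℕ => (1 + (n : ℝ)) * ‖u n‖ ^ 2

/-- The Fourier coefficients of `Π(u h̄)`: the `n`-th one is `∑_m û(n+m) conj(ĥ(m))`. -/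
def hankelSeq (u h : ℕ → ℂ) (n : ℕ) : ℂ := ∑' m, u (n + m) * conj (h m)

open Classical in
/-- The antilinear Hankel operator `H_u(h) = Π(u h̄)` on `L²₊`. (For `u ∈ H^{1/2}_+` the sequence
`hankelSeq u h` is always square-summable, see `memHankel`; otherwise the value is `0`.) -/
def hankel (u h : Hardy) : Hardy :=
  if hm : Memℓp (hankelSeq u h) 2 then ⟨hankelSeq u h, hm⟩ else 0

/-- The coefficients of `e^{ix} h`: `0, ĥ(0), ĥ(1), …`. -/
def shiftSeq (h : ℕ → ℂ) : ℕ → ℂ
  | 0 => 0
  | n + 1 => h n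

theorem shiftSeq_zero (h : ℕ → ℂ) : shiftSeq h 0 = 0 := rfl

theorem shiftSeq_succ (h : ℕ → ℂ) (n : ℕ) : shiftSeq h (n + 1) = h n := rfl

theorem memShift (h : Hardy) : Memℓp (shiftSeq h) 2 := by
  have h1 : Memℓp (h : ℕ → ℂ) 2 := lp.memℓp h
  rw [memℓp_gen_iff (by norm_num)] at h1 ⊢
  rw [← summable_nat_add_iff 1]
  exact h1

/-- `S`: multiplication by `e^{ix}`. -/
def shift (h : Hardy) : Hardy := ⟨shiftSeq h, memShift h⟩

/-- `K_u = H_u S`. -/
def shiftedHankel (u h : Hardy) : Hardy := hankel u (shift h)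

/-- The positive eigenvalues of `T²` are exactly the numbers `(s_j)²`, and each of them has a
one-dimensional eigenspace. -/
def HasSingularValues (T : Hardy → Hardy) (s : ℕ → ℝ) : Prop :=
  (∀ j, ∃ e : Hardy, e ≠ 0 ∧
    ∀ h : Hardy, T (T h) = ((s j ^ 2 : ℝ) : ℂ) • h ↔ ∃ c : ℂ, h = c • e) ∧
  ∀ (t : ℝ) (h : Hardy), 0 < t → h ≠ 0 → T (T h) = (t : ℂ) • h → ∃ j, t = s j ^ 2

/-- The torus `𝒯((s_r))`. The sequence is indexed from `0` here: `s r` is the number `s_{r+1}` of
the problem. So `ρ_j = s (2 (j-1))` and `σ_k = s (2 (k-1) + 1)` for `j, k ≥ 1`. -/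
def InTorus (s : ℕ → ℝ) (u : Hardy) : Prop :=
  InHhalf u ∧ HasSingularValues (hankel u) (fun j => s (2 * j)) ∧
    HasSingularValues (shiftedHankel u) (fun k => s (2 * k + 1))

/-! ### Basic facts on Hankel operators with symbol in `H^{1/2}_+` -/

theorem norm_sq (h : Hardy) : ‖h‖ ^ 2 = ∑' n, ‖h n‖ ^ 2 := by
  have := lp.norm_rpow_eq_tsum (p := 2) (by norm_num) h
  simpa using this

theorem summable_sq (h : Hardy) : Summable fun n => ‖h n‖ ^ 2 := by
  have := (memℓp_gen_iff (p := 2) (by norm_num)).1 (lp.memℓp h)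
  simpa using this

/-- double summability -/
theorem summable_prod {u : Hardy} (hu : InHhalf u) :
    Summable fun p : ℕ × ℕ => ‖u (p.1 + p.2)‖ ^ 2 := by
  apply (Finset.HasAntidiagonal.sigmaAntidiagonalEquivProd (A := ℕ)).summable_iff.1
  have hnn : ∀ x : (Σ n : ℕ, Finset.HasAntidiagonal.antidiagonal n),
      0 ≤ ((fun p : ℕ × ℕ => ‖u (p.1 + p.2)‖ ^ 2) ∘ Finset.HasAntidiagonal.sigmaAntidiagonalEquivProd) x :=
    fun x => by simp only [Function.comp_apply]; positivity
  rw [summable_sigma_of_nonneg hnn]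
  refine ⟨fun n => (hasSum_fintype _).summable, ?_⟩
  refine Summable.congr hu ?_
  intro n
  rw [tsum_fintype]
  have : ∀ b : Finset.HasAntidiagonal.antidiagonal n, ((fun p : ℕ × ℕ => ‖u (p.1 + p.2)‖ ^ 2) ∘
      Finset.HasAntidiagonal.sigmaAntidiagonalEquivProd) ⟨n, b⟩ = ‖u n‖ ^ 2 := by
    intro b
    have hb := Finset.HasAntidiagonal.mem_antidiagonal.1 b.2
    simp only [Function.comp_apply, Finset.HasAntidiagonal.sigmaAntidiagonalEquivProd_apply, hb]
  rw [Finset.sum_congr rfl (fun b _ => this b), Finset.sum_const, nsmul_eq_mul]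
  simp [Finset.Nat.card_antidiagonal]
  ring_nf
  simp

/-- row sums -/
def row (u : Hardy) (n : ℕ) : ℝ := ∑' m, ‖u (n + m)‖ ^ 2

theorem row_nonneg (u : Hardy) (n : ℕ) : 0 ≤ row u n := tsum_nonneg fun _ => by positivity

theorem summable_row {u : Hardy} (hu : InHhalf u) : Summable (row u) :=
  ((summable_prod_of_nonneg (fun _ => by positivity)).1 (summable_prod hu)).2

theorem summable_shift (u : Hardy) (n : ℕ) : Summable fun m => ‖u (n + m)‖ ^ 2 := by
  have := (summable_nat_add_iff n).2 (summable_sq u)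
  simpa [add_comm] using this

theorem summable_term (u h : Hardy) (n : ℕ) : Summable fun m => u (n + m) * conj (h m) := by
  apply Summable.of_norm_bounded (g := fun m => ‖u (n + m)‖ ^ 2 + ‖h m‖ ^ 2)
    ((summable_shift u n).add (summable_sq h))
  intro m
  rw [norm_mul, RCLike.norm_conj]
  nlinarith [sq_nonneg (‖u (n + m)‖ - ‖h m‖), norm_nonneg (u (n + m)), norm_nonneg (h m)]

theorem norm_hankelSeq_sq_le (u h : Hardy) (n : ℕ) :
    ‖hankelSeq u h n‖ ^ 2 ≤ row u n * ‖h‖ ^ 2 := by
  have h1 : ‖hankelSeq u h n‖ ≤ Real.sqrt (row u n) * Real.sqrt (‖h‖ ^ 2) := by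
    have hlim : Tendsto (fun s : Finset ℕ => ‖∑ m ∈ s, u (n + m) * conj (h m)‖) atTop
        (𝓝 ‖hankelSeq u h n‖) := Filter.Tendsto.norm (summable_term u h n).hasSum
    apply le_of_tendsto hlim
    refine Eventually.of_forall fun s => ?_
    calc ‖∑ m ∈ s, u (n + m) * conj (h m)‖ ≤ ∑ m ∈ s, ‖u (n + m)‖ * ‖h m‖ := by
          refine (norm_sum_le _ _).trans (Finset.sum_le_sum fun m _ => ?_)
          rw [norm_mul, RCLike.norm_conj]
      _ ≤ Real.sqrt (∑ m ∈ s, ‖u (n + m)‖ ^ 2) * Real.sqrt (∑ m ∈ s, ‖h m‖ ^ 2) :=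
          Real.sum_mul_le_sqrt_mul_sqrt _ _ _
      _ ≤ _ := by
          apply mul_le_mul (Real.sqrt_le_sqrt _) (Real.sqrt_le_sqrt _) (Real.sqrt_nonneg _)
            (Real.sqrt_nonneg _)
          · exact (summable_shift u n).sum_le_tsum s (fun _ _ => by positivity)
          · rw [norm_sq]
            exact (summable_sq h).sum_le_tsum s (fun _ _ => by positivity)
  calc ‖hankelSeq u h n‖ ^ 2 ≤ (Real.sqrt (row u n) * Real.sqrt (‖h‖ ^ 2)) ^ 2 := by gcongr
    _ = _ := by rw [mul_pow, Real.sq_sqrt (row_nonneg u n), Real.sq_sqrt (by positivity)]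

theorem memHankel {u : Hardy} (hu : InHhalf u) (h : Hardy) : Memℓp (hankelSeq u h) 2 := by
  rw [memℓp_gen_iff (by norm_num)]
  have : Summable fun n => ‖hankelSeq u h n‖ ^ 2 :=
    Summable.of_nonneg_of_le (fun _ => by positivity) (norm_hankelSeq_sq_le u h)
      ((summable_row hu).mul_right _)
  simpa using this

theorem hankel_apply {u : Hardy} (hu : InHhalf u) (h : Hardy) (n : ℕ) :
    hankel u h n = hankelSeq u h n := by
  unfold hankel
  rw [dif_pos (memHankel hu h)]

theorem shift_zero (h : Hardy) : shift h 0 = 0 := rfl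

theorem shift_succ (h : Hardy) (n : ℕ) : shift h (n + 1) = h n := rfl

theorem norm_hankel_sq_le {u : Hardy} (hu : InHhalf u) (h : Hardy) :
    ‖hankel u h‖ ^ 2 ≤ (∑' n, row u n) * ‖h‖ ^ 2 := by
  rw [norm_sq, ← tsum_mul_right]
  apply Summable.tsum_le_tsum _ (summable_sq _) ((summable_row hu).mul_right _)
  intro n
  rw [hankel_apply hu]
  exact norm_hankelSeq_sq_le u h n

/-- `H_u` as a continuous antilinear map. -/
def hankelL {u : Hardy} (hu : InHhalf u) : Hardy →L⋆[ℂ] Hardy :=
  LinearMap.mkContinuous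
    { toFun := hankel u
      map_add' := by
        intro x y
        ext n
        rw [lp.coeFn_add, Pi.add_apply, hankel_apply hu, hankel_apply hu, hankel_apply hu]
        unfold hankelSeq
        rw [← (summable_term u x n).tsum_add (summable_term u y n)]
        apply tsum_congr
        intro m
        rw [lp.coeFn_add, Pi.add_apply, map_add]
        ring
      map_smul' := by
        intro c x
        ext n
        rw [lp.coeFn_smul, Pi.smul_apply, hankel_apply hu, hankel_apply hu]
        unfold hankelSeq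
        rw [smul_eq_mul, ← tsum_mul_left]
        apply tsum_congr
        intro m
        rw [lp.coeFn_smul, Pi.smul_apply, smul_eq_mul, map_mul]
        ring }
    (Real.sqrt (∑' n, row u n)) (by
      intro x
      have h1 := norm_hankel_sq_le hu x
      have h2 : ‖hankel u x‖ = Real.sqrt (‖hankel u x‖ ^ 2) := (Real.sqrt_sq (norm_nonneg _)).symm
      change ‖hankel u x‖ ≤ _
      rw [h2]
      refine (Real.sqrt_le_sqrt h1).trans (le_of_eq ?_)
      rw [Real.sqrt_mul (tsum_nonneg (row_nonneg u)), Real.sqrt_sq (norm_nonneg _)])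

theorem hankelL_apply {u : Hardy} (hu : InHhalf u) (h : Hardy) : hankelL hu h = hankel u h := rfl

/-- `S` as a continuous linear map. -/
def shiftL : Hardy →L[ℂ] Hardy :=
  LinearMap.mkContinuous
    { toFun := shift
      map_add' := by
        intro x y
        ext n
        cases n with
        | zero => rw [lp.coeFn_add, Pi.add_apply, shift_zero, shift_zero, shift_zero, add_zero]
        | succ n =>
          rw [lp.coeFn_add, Pi.add_apply, shift_succ, shift_succ, shift_succ, lp.coeFn_add,
            Pi.add_apply]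
      map_smul' := by
        intro c x
        ext n
        cases n with
        | zero => rw [lp.coeFn_smul, Pi.smul_apply, shift_zero, shift_zero, smul_zero]
        | succ n =>
          rw [lp.coeFn_smul, Pi.smul_apply, shift_succ, shift_succ, lp.coeFn_smul, Pi.smul_apply]
          rfl } 1 (by
      intro x
      rw [one_mul]
      change ‖shift x‖ ≤ ‖x‖
      have h1 : ‖shift x‖ ^ 2 = ‖x‖ ^ 2 := by
        rw [norm_sq, norm_sq, (summable_sq (shift x)).tsum_eq_zero_add]
        simp [shift_zero, shift_succ]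
      exact le_of_eq ((sq_eq_sq₀ (norm_nonneg _) (norm_nonneg _)).1 h1))

theorem shiftL_apply (h : Hardy) : shiftL h = shift h := rfl

theorem summable_double {u : Hardy} (hu : InHhalf u) (x y : Hardy) :
    Summable fun p : ℕ × ℕ => conj (u (p.1 + p.2)) * x p.2 * y p.1 := by
  have h1 := summable_prod hu
  have h2 : Summable fun p : ℕ × ℕ => ‖y p.1‖ ^ 2 * ‖x p.2‖ ^ 2 :=
    (summable_sq y).mul_of_nonneg (summable_sq x) (fun _ => by positivity) (fun _ => by positivity)
  apply Summable.of_norm_bounded (h1.add h2)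
  intro p
  rw [norm_mul, norm_mul, RCLike.norm_conj]
  nlinarith [sq_nonneg (‖u (p.1 + p.2)‖ - ‖x p.2‖ * ‖y p.1‖), norm_nonneg (u (p.1 + p.2)),
    norm_nonneg (x p.2), norm_nonneg (y p.1), mul_nonneg (norm_nonneg (x p.2)) (norm_nonneg (y p.1))]

theorem inner_hankel {u : Hardy} (hu : InHhalf u) (x y : Hardy) :
    inner ℂ (hankel u x) y = ∑' p : ℕ × ℕ, conj (u (p.1 + p.2)) * x p.2 * y p.1 := by
  rw [lp.inner_eq_tsum, (summable_double hu x y).tsum_prod]
  apply tsum_congr
  intro n
  rw [hankel_apply hu]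
  simp only [RCLike.inner_apply]
  unfold hankelSeq
  rw [Complex.conj_tsum, ← tsum_mul_left]
  apply tsum_congr
  intro m
  rw [map_mul, Complex.conj_conj]
  ring

theorem hankel_symm {u : Hardy} (hu : InHhalf u) (x y : Hardy) :
    inner ℂ (hankel u x) y = inner ℂ (hankel u y) x := by
  rw [inner_hankel hu, inner_hankel hu, ← (Equiv.prodComm ℕ ℕ).tsum_eq]
  apply tsum_congr
  intro p
  simp only [Equiv.prodComm_apply, Prod.fst_swap, Prod.snd_swap]
  rw [add_comm p.2 p.1]
  ring

theorem shiftedHankel_apply {u : Hardy} (hu : InHhalf u) (h : Hardy) (n : ℕ) :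
    shiftedHankel u h n = hankel u h (n + 1) := by
  unfold shiftedHankel
  rw [hankel_apply hu, hankel_apply hu]
  unfold hankelSeq
  rw [(summable_term u (shift h) n).tsum_eq_zero_add, shift_zero]
  simp only [map_zero, mul_zero, zero_add]
  apply tsum_congr
  intro m
  rw [shift_succ, show n + (m + 1) = n + 1 + m by omega]

theorem inner_shift (z x : Hardy) : inner ℂ z (shift x) = ∑' n, inner ℂ (z (n + 1)) (x n) := by
  rw [lp.inner_eq_tsum]
  have hs : Summable fun n => inner ℂ (z n) (shift x n) := lp.summable_inner z (shift x)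
  rw [hs.tsum_eq_zero_add, shift_zero, inner_zero_right, zero_add]
  apply tsum_congr
  intro m
  rw [shift_succ]

theorem shiftedHankel_symm {u : Hardy} (hu : InHhalf u) (x y : Hardy) :
    inner ℂ (shiftedHankel u x) y = inner ℂ (shiftedHankel u y) x := by
  have h1 : inner ℂ (shiftedHankel u x) y = inner ℂ (hankel u y) (shift x) := by
    unfold shiftedHankel
    rw [hankel_symm hu]
  rw [h1, inner_shift, lp.inner_eq_tsum]
  apply tsum_congr
  intro n
  rw [shiftedHankel_apply hu]

theorem norm_shiftedHankel_le {u : Hardy} (hu : InHhalf u) (x : Hardy) :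
    ‖shiftedHankel u x‖ ≤ ‖hankel u x‖ := by
  rw [← sq_le_sq₀ (norm_nonneg _) (norm_nonneg _), norm_sq, norm_sq,
    (summable_sq (hankel u x)).tsum_eq_zero_add]
  have : ∀ n, ‖shiftedHankel u x n‖ ^ 2 = ‖hankel u x (n + 1)‖ ^ 2 := by
    intro n
    rw [shiftedHankel_apply hu]
  rw [tsum_congr this]
  linarith [sq_nonneg ‖hankel u x 0‖]

/-! ### Compactness -/

/-- the canonical basis vectors `e^{inx}` -/
def bas (n : ℕ) : Hardy := lp.single 2 n (1:ℂ)

theorem inner_bas (n : ℕ) (h : Hardy) : inner ℂ (bas n) h = h n := by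
  unfold bas
  rw [lp.inner_single_left]
  simp

/-- truncation -/
def trunc (N : ℕ) : Hardy →L[ℂ] Hardy :=
  ∑ n ∈ Finset.range N, (innerSL ℂ (bas n)).smulRight (bas n)

theorem trunc_apply (N : ℕ) (h : Hardy) (m : ℕ) : trunc N h m = if m < N then h m else 0 := by
  unfold trunc
  rw [sum_apply, lp.coeFn_sum, Finset.sum_apply]
  have : ∀ n ∈ Finset.range N, (((innerSL ℂ (bas n)).smulRight (bas n)) h : ℕ → ℂ) m =
      if n = m then h m else 0 := by
    intro n _
    rw [ContinuousLinearMap.smulRight_apply, innerSL_apply_apply, inner_bas, lp.coeFn_smul,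
      Pi.smul_apply]
    unfold bas
    by_cases hnm : n = m
    · subst hnm
      simp
    · rw [if_neg hnm, lp.single_apply_ne _ _ _ (Ne.symm hnm), smul_zero]
  rw [Finset.sum_congr rfl this, Finset.sum_ite_eq']
  simp [Finset.mem_range]

theorem trunc_compact (N : ℕ) : IsCompactOperator (trunc N) := by
  unfold trunc
  induction N with
  | zero => simpa using isCompactOperator_zero
  | succ N ih =>
    rw [Finset.sum_range_succ]
    refine ih.add ?_
    have h1 : IsCompactOperator (ContinuousLinearMap.toSpanSingleton ℂ (bas N)) :=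
      isCompactOperator_of_locallyCompactSpace_rng _
    have h2 := h1.comp_clm (innerSL ℂ (bas N))
    refine h2

theorem norm_sub_trunc {u : Hardy} (hu : InHhalf u) (N : ℕ) :
    ‖(trunc N).comp (hankelL hu) - hankelL hu‖ ≤ Real.sqrt (∑' n, row u (n + N)) := by
  apply ContinuousLinearMap.opNorm_le_bound _ (Real.sqrt_nonneg _)
  intro x
  set v : Hardy := ((trunc N).comp (hankelL hu) - hankelL hu) x with hv
  have hvn : ∀ n, v n = if n < N then 0 else - hankelSeq u x n := by
    intro n
    rw [hv, sub_apply, lp.coeFn_sub, Pi.sub_apply,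
      ContinuousLinearMap.comp_apply, trunc_apply, hankelL_apply, hankel_apply hu]
    split_ifs <;> simp
  have h1 : ‖v‖ ^ 2 ≤ (∑' n, row u (n + N)) * ‖x‖ ^ 2 := by
    rw [norm_sq, ← (summable_sq v).sum_add_tsum_nat_add N, Finset.sum_eq_zero, zero_add,
      ← tsum_mul_right]
    · apply Summable.tsum_le_tsum _ ((summable_nat_add_iff N).2 (summable_sq v))
        (((summable_nat_add_iff N).2 (summable_row hu)).mul_right _)
      intro n
      rw [hvn, if_neg (by omega), norm_neg]
      exact norm_hankelSeq_sq_le u x (n + N)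
    · intro n hn
      rw [hvn, if_pos (Finset.mem_range.1 hn), norm_zero]
      norm_num
  have h2 : ‖v‖ = Real.sqrt (‖v‖ ^ 2) := (Real.sqrt_sq (norm_nonneg _)).symm
  rw [h2]
  refine (Real.sqrt_le_sqrt h1).trans (le_of_eq ?_)
  rw [Real.sqrt_mul (tsum_nonneg fun n => row_nonneg u _), Real.sqrt_sq (norm_nonneg _)]

theorem hankelL_compact {u : Hardy} (hu : InHhalf u) : IsCompactOperator (hankelL hu) := by
  refine isCompactOperator_of_tendsto (l := atTop)
    (F := fun N : ℕ => (trunc N).comp (hankelL hu)) ?_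
    (Eventually.of_forall fun N => (trunc_compact N).comp_clm (hankelL hu))
  rw [tendsto_iff_norm_sub_tendsto_zero]
  refine squeeze_zero (fun _ => norm_nonneg _) (norm_sub_trunc hu) ?_
  have h1 : Tendsto (fun N : ℕ => ∑' n, row u (n + N)) atTop (𝓝 0) :=
    tendsto_sum_nat_add (row u)
  have h2 := (Real.continuous_sqrt.tendsto 0).comp h1
  rw [Real.sqrt_zero] at h2
  exact h2

theorem shiftedHankelL_compact {u : Hardy} (hu : InHhalf u) :
    IsCompactOperator ((hankelL hu).comp shiftL) :=
  (hankelL_compact hu).comp_clm shiftL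

/-! ### The main estimate -/

open Pool.Agent.Q85.HT

theorem shift_iterate_bas (n : ℕ) (m : ℕ) : (shift^[n] (bas 0)) m = if m = n then 1 else 0 := by
  induction n generalizing m with
  | zero =>
    simp only [Function.iterate_zero, id_eq]
    unfold bas
    by_cases h : m = 0
    · subst h
      rw [lp.single_apply_self, if_pos rfl]
    · rw [lp.single_apply_ne _ _ _ h, if_neg h]
  | succ n ih =>
    rw [Function.iterate_succ_apply']
    cases m with
    | zero => rw [shift_zero, if_neg (by omega)]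
    | succ m =>
      rw [shift_succ, ih]
      by_cases h : m = n
      · subst h; simp
      · rw [if_neg h, if_neg (by omega)]

theorem coeff_eq {u : Hardy} (hu : InHhalf u) (n : ℕ) :
    inner ℂ (bas 0) (hankel u (shift^[n] (bas 0))) = u n := by
  rw [inner_bas, hankel_apply hu]
  unfold hankelSeq
  rw [tsum_eq_single n]
  · rw [shift_iterate_bas, if_pos rfl]; simp
  · intro m hm
    rw [shift_iterate_bas, if_neg hm]; simp

theorem norm_bas (n : ℕ) : ‖bas n‖ = 1 := by
  unfold bas
  rw [lp.norm_single (by norm_num)]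
  simp

theorem s_le {δ : ℝ} (hδ0 : 0 < δ) (hδ1 : δ < 1) {s : ℕ → ℝ} (hs : ∀ r, 0 < s r)
    (hr : ∀ r, s (r + 1) ≤ δ * s r) : ∀ m n : ℕ, m < n → s n ≤ δ * s m := by
  have hanti : Antitone s := by
    apply antitone_nat_of_succ_le
    intro n
    exact (hr n).trans (by nlinarith [hs n])
  intro m n hmn
  calc s n ≤ s (m + 1) := hanti (by omega)
    _ ≤ δ * s m := hr m

theorem coeff_bound {δ : ℝ} (hδ0 : 0 < δ) (hδ1 : δ < 1) : ∃ q : ℝ, 0 ≤ q ∧ q < 1 ∧
    ∀ s : ℕ → ℝ, (∀ r, 0 < s r) → (∀ r, s (r + 1) ≤ δ * s r) → ∀ u : Hardy, InTorus s u →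
      ∀ n, ‖u n‖ ≤ s 0 * (q ^ 2) ^ n := by
  have hη : 0 < -Real.log δ := by
    have := Real.log_neg hδ0 hδ1
    linarith
  obtain ⟨q, hq0, hq1, hq⟩ := exists_contraction hη
  refine ⟨q, hq0, hq1, ?_⟩
  intro s hs hr u hu n
  obtain ⟨hH, h1, h2⟩ := hu
  have hlt := s_le hδ0 hδ1 hs hr
  have hstrict : StrictAnti s := by
    intro m n hmn
    have := hlt m n hmn
    nlinarith [hs m]
  obtain ⟨e, he, heH, hce⟩ := spectral (T := hankelL hH) (fun x y => hankel_symm hH x y)
    (hankelL_compact hH) (fun j => s (2 * j)) (fun j => hs _)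
    (fun i j h => by
      have := hstrict.injective h
      omega) h1.1 h1.2
  obtain ⟨f, hf, hfK, hcf⟩ := spectral (T := (hankelL hH).comp shiftL)
    (fun x y => shiftedHankel_symm hH x y)
    (shiftedHankelL_compact hH) (fun j => s (2 * j + 1)) (fun j => hs _)
    (fun i j h => by
      have := hstrict.injective h
      omega) h2.1 h2.2
  let P : Pair Hardy :=
    { H := hankelL hH
      K := (hankelL hH).comp shiftL
      e := e
      f := f
      ρ := fun j => s (2 * j)
      σ := fun j => s (2 * j + 1)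
      he := he
      hf := hf
      hρ := fun j => hs _
      hσ := fun j => hs _
      He := heH
      Kf := hfK
      Hs := fun x y => hankel_symm hH x y
      Ks := fun x y => shiftedHankel_symm hH x y
      KH := fun x => norm_shiftedHankel_le hH x }
  have hgood : Good P shift (s 0) :=
    { ce := hce
      cf := hcf
      KS := fun x => rfl
      hR := fun i => hstrict.antitone (Nat.zero_le _)
      hR' := fun i => hstrict.antitone (Nat.zero_le _) }
  have hcontr : Contr P q := by
    apply hq Hardy P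
    intro i k
    change -Real.log δ ≤ |Real.log (s (2 * k + 1) / s (2 * i))|
    rw [Real.log_div (hs _).ne' (hs _).ne']
    rcases lt_or_ge (2 * i) (2 * k + 1) with h | h
    · have h3 := hlt _ _ h
      have h4 := Real.log_le_log (hs _) h3
      rw [Real.log_mul hδ0.ne' (hs _).ne'] at h4
      refine le_trans ?_ (neg_le_abs _)
      linarith
    · have h3 := hlt (2 * k + 1) (2 * i) (by omega)
      have h4 := Real.log_le_log (hs _) h3
      rw [Real.log_mul hδ0.ne' (hs _).ne'] at h4
      refine le_trans ?_ (le_abs_self _)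
      linarith
  have h5 := hgood.final hq0 hcontr (bas 0) n
  have h6 : inner ℂ (bas 0) (P.H (shift^[n] (bas 0))) = u n := coeff_eq hH n
  rw [h6, norm_bas] at h5
  simpa using h5

end

end Pool.Agent.Q85.HT.G
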